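import Pool.Agent.MWP.Stmts

set_option autoImplicit false

namespace Pool.Agent.MWP.H33

open Pool.Agent.Helper14_MV Pool.Agent.Helper2_MV Pool.Agent.MWF Pool.Agent.MWP

/-- the test word -/
def LL (p q : ℕ) : List ℕ := List.replicate (2 * p) 0 ++ ([1, 1] ++ List.replicate (2 * q) 0)

theorem rep_two {β : FIC} (h : RR β [0, 0] [0, 0, 0]) : ∀ n : ℕ,
    RR β (List.replicate (n + 2) 0) [0, 0] := by
  intro n
  induction n with
  | zero => exact RR.refl _
  | succ n ih =>
    have h1 : RR β ([0] ++ List.replicate (n + 2) 0) ([0] ++ [0, 0]) := (RR.refl [0]).append ih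
    have h2 : RR β (List.replicate (n + 1 + 2) 0) [0, 0, 0] := h1
    exact β.trans h2 h.symm

/-- normal form of the test word -/
def NN (a b : Bool) : List ℕ :=
  (if a then [0, 0] else []) ++ ([1, 1] ++ (if b then [0, 0] else []))

theorem rep_nf {β : FIC} (h : RR β [0, 0] [0, 0, 0]) (p : ℕ) :
    RR β (List.replicate (2 * p) 0) (if decide (0 < p) then [0, 0] else []) := by
  rcases Nat.eq_zero_or_pos p with rfl | hp
  · exact RR.refl _
  · have h1 : decide (0 < p) = true := by simpa using hp
    rw [h1, if_pos rfl]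
    have h2 := rep_two h (2 * p - 2)
    have h3 : 2 * p - 2 + 2 = 2 * p := by omega
    rw [h3] at h2
    exact h2

theorem LL_nf {β : FIC} (h : RR β [0, 0] [0, 0, 0]) (p q : ℕ) :
    RR β (LL p q) (NN (decide (0 < p)) (decide (0 < q))) :=
  (rep_nf h p).append ((RR.refl [1, 1]).append (rep_nf h q))

theorem flat {c : ℕ} (hc : c ≠ 0) : ∀ l : List ℕ, 0 ∉ l →
    l.flatMap (fun d => if d = c then [0, 0] else if d = 0 then [1, 1] else []) =
      List.replicate (2 * l.count c) 0 := by
  intro l
  induction l with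
  | nil => intro _; rfl
  | cons a l ih =>
    intro h
    rw [List.mem_cons, not_or] at h
    rw [List.flatMap_cons, ih h.2]
    by_cases h1 : a = c
    · subst h1
      rw [if_pos rfl, List.count_cons_self]
      have h2 : 2 * (l.count a + 1) = 2 * l.count a + 1 + 1 := by omega
      rw [h2, List.replicate_succ, List.replicate_succ]
      rfl
    · rw [if_neg h1, if_neg (Ne.symm h.1), List.count_cons_of_ne h1]
      rfl

theorem egx_word {c : ℕ} (hc : c ≠ 0) {w0 w1 : List ℕ} (h0 : 0 ∉ w0) (h1 : 0 ∉ w1) :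
    (w0 ++ 0 :: w1).flatMap (fun d => if d = c then [0, 0] else if d = 0 then [1, 1] else []) =
      LL (w0.count c) (w1.count c) := by
  rw [List.flatMap_append, List.flatMap_cons, flat hc w0 h0, flat hc w1 h1]
  rw [if_neg (Ne.symm hc), if_pos rfl]
  rfl

theorem multi {c : ℕ} (hc : c ≠ 0) {w0 w1 : List ℕ} (h : [c, c].Sublist (w0 ++ 0 :: w1)) :
    0 < w0.count c ∨ 0 < w1.count c := by
  have h1 := (pair_mem h).1
  rw [List.mem_append, List.mem_cons] at h1
  rcases h1 with h2 | h2 | h2
  · exact Or.inl (List.count_pos_iff.2 h2)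
  · exact absurd h2 hc
  · exact Or.inr (List.count_pos_iff.2 h2)

theorem egx (iso : IsoStmt) (ge1 : Ge1Stmt) : EgxStmt := by
  intro β hβ w0 w1 w0' w1' h0 h1 h0' h1' hr c hc hcc
  have hsq : RR β [0, 0] [0, 0, 0] := hβ.ap.sq
  have hcc' : [c, c].Sublist (w0' ++ 0 :: w1') := ((iso β hβ.ap _ _ hr c).2).1 hcc
  have hm := multi hc hcc
  have hm' := multi hc hcc'
  obtain ⟨_, g2, g3⟩ := ge1 β hβ
  have hL : RR β (LL (w0.count c) (w1.count c)) (LL (w0'.count c) (w1'.count c)) := by
    have h := RR.sub (fun d => if d = c then [0, 0] else if d = 0 then [1, 1] else []) hr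
    rw [egx_word hc h0 h1, egx_word hc h0' h1'] at h
    exact h
  have hN : RR β (NN (decide (0 < w0.count c)) (decide (0 < w1.count c)))
      (NN (decide (0 < w0'.count c)) (decide (0 < w1'.count c))) :=
    β.trans (β.symm (LL_nf hsq _ _)) (β.trans hL (LL_nf hsq _ _))
  -- the third impossible case
  have g4 : ¬ RR β [0, 0, 1, 1] [1, 1, 0, 0] := by
    intro h
    apply g3
    have h5 : RR β ([0, 0] ++ [0, 0, 1, 1]) ([0, 0] ++ [1, 1, 0, 0]) := (RR.refl [0, 0]).append h
    have h6 : RR β ([0, 0, 0, 0] ++ [1, 1]) ([0, 0] ++ [1, 1]) :=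
      (rep_two hsq 2).append (RR.refl [1, 1])
    have h7 : RR β [0, 0, 1, 1] [0, 0, 1, 1, 0, 0] := β.trans (β.symm h6) h5
    exact h7
  have key : ∀ a b a' b' : Bool, (a = true ∨ b = true) → (a' = true ∨ b' = true) →
      RR β (NN a b) (NN a' b') → a = a' ∧ b = b' := by
    intro a b a' b' hab hab' h
    cases a <;> cases b <;> cases a' <;> cases b'
    all_goals first
      | exact ⟨rfl, rfl⟩
      | (exfalso; rcases hab with h8 | h8 <;> exact Bool.false_ne_true h8)
      | (exfalso; rcases hab' with h8 | h8 <;> exact Bool.false_ne_true h8)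
      | exact absurd h g2
      | exact absurd (β.symm h) g2
      | exact absurd h g3
      | exact absurd (β.symm h) g3
      | exact absurd h g4
      | exact absurd (β.symm h) g4
  have hfin := key _ _ _ _ (by simpa using hm) (by simpa using hm') hN
  constructor
  · rw [← List.count_pos_iff, ← List.count_pos_iff]
    exact decide_eq_decide.1 hfin.1
  · rw [← List.count_pos_iff, ← List.count_pos_iff]
    exact decide_eq_decide.1 hfin.2

end Pool.Agent.MWP.H33
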